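import Pool.Agent.LibGN33.Defs

/-! Row G5: density. -/

open MeasureTheory Set Filter Topology
open scoped ContDiff unitInterval

namespace GN33

open BGS BGM

variable {Γ : Type} [Group Γ] [MulAction Γ Pl] {D : Set Pl}

private theorem G5_lam : Tendsto (fun T : ℝ => √(Real.log T) / Real.log T) atTop (𝓝 0) := by
  have h1 : Tendsto (fun T : ℝ => √(Real.log T)) atTop atTop :=
    Real.tendsto_sqrt_atTop.comp Real.tendsto_log_atTop
  refine h1.inv_tendsto_atTop.congr fun T => ?_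
  rw [Pi.inv_apply]
  rcases le_or_gt (Real.log T) 0 with h | h
  · rw [Real.sqrt_eq_zero_of_nonpos h]
    simp
  · have h2 : 0 < √(Real.log T) := Real.sqrt_pos.2 h
    have h3 : Real.log T = √(Real.log T) * √(Real.log T) := (Real.mul_self_sqrt h.le).symm
    rw [eq_div_iff h.ne']
    nth_rewrite 2 [h3]
    rw [← mul_assoc, inv_mul_cancel₀ h2.ne', one_mul]

private theorem G5_sep {m : Pl → Co} (hS : SepG Γ m fun T => √(Real.log T)) (R : ℝ) :
    QI Γ m R := by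
  intro s e hs
  have hR : 0 ≤ R := le_trans (Nat.cast_nonneg _) hs.card
  have h1 : ∀ᶠ T : ℝ in atTop, 1 ≤ √(Real.log T) :=
    (Real.tendsto_sqrt_atTop.comp Real.tendsto_log_atTop).eventually (eventually_ge_atTop 1)
  obtain ⟨T, hT, hT1, hT0⟩ := ((hS ⌊R⌋₊ R).and (h1.and (eventually_gt_atTop 0))).exists
  have hRT : R ≤ R * √(Real.log T) := le_mul_of_one_le_right hR hT1
  have h2 := hT s e (Nat.le_floor hs.card) hs.prim hs.nc (fun g hg => (hs.coef g hg).trans hRT)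
    (fun g hg => (hs.len g hg).trans hRT) hs.ne
  have h3 : 0 < T ^ (-(1 / 2) : ℝ) := Real.rpow_pos_of_pos hT0 _
  exact abs_pos.1 (h3.trans_le h2)

theorem QI_dense (hX : Surface Γ D) (R : ℝ) : Dense {m : Mt Γ D | QI Γ m.1.1 R} := by
  obtain ⟨φ, h1, h2, h3, h4⟩ := sep_ae hX (h1_of hX) G5_lam
  intro m
  rw [mem_closure_iff_nhds]
  intro U hU
  obtain ⟨s₀, hs₀, h5⟩ := h3 m U hU
  have h0 : (fun _ : Pl => (0 : ℝ)) ∈ Test Γ := ⟨contDiff_const, fun _ _ => rfl⟩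
  have h6 := h4 m _ h0 (min s₀ 1) (lt_min hs₀ one_pos) (min_le_right _ _)
  obtain ⟨ξ, hξ⟩ := h6.exists
  obtain ⟨m', hm', q, hq, hq'⟩ := h5 (min s₀ 1) (lt_min hs₀ one_pos) (min_le_left _ _) ξ
  refine ⟨m', hm', G5_sep (hξ m' ⟨q, hq, fun z => ?_⟩) R⟩
  rw [hq' z, zero_add]

end GN33
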