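import Pool.Agent.LibGN33.Defs

/-! Row G6: a slowly growing window for a rationally independent spectrum. -/

open MeasureTheory Set Filter Topology
open scoped ContDiff unitInterval

namespace GN33

open BGS BGM

variable {Γ : Type} [Group Γ] [MulAction Γ Pl] {D : Set Pl}

theorem slow {m : Pl → Co} (δ : ℕ → ℝ) (hδ : ∀ n, 0 < δ n)
    (h : ∀ (n : ℕ) (s : Finset Γ) (e : Γ → ℤ), Adm m n s e →
      δ n ≤ |∑ g ∈ s, (e g : ℝ) * tl m g|) :
    ∃ Lam : ℝ → ℝ, Tendsto Lam atTop atTop ∧ Tendsto (fun T => Lam T / Real.log T) atTop (𝓝 0) ∧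
      SepG Γ m Lam := by
  classical
  set P : ℝ → ℕ → Prop := fun T n => n = 0 ∨ T ^ (-(1 / 2) : ℝ) ≤ δ n with hP
  set N : ℝ → ℕ := fun T => Nat.findGreatest (P T) ⌊Real.sqrt (Real.log T)⌋₊ with hN
  have hlog : Tendsto Real.log atTop atTop := Real.tendsto_log_atTop
  have hsq : Tendsto (fun T : ℝ => Real.sqrt (Real.log T)) atTop atTop :=
    Real.tendsto_sqrt_atTop.comp hlog
  have hpow : Tendsto (fun T : ℝ => T ^ (-(1 / 2) : ℝ)) atTop (𝓝 0) :=
    tendsto_rpow_neg_atTop (by norm_num)
  have hNge : ∀ n : ℕ, ∀ᶠ T : ℝ in atTop, n ≤ N T := by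
    intro n
    filter_upwards [hpow.eventually (gt_mem_nhds (hδ n)), hsq.eventually (eventually_ge_atTop (n : ℝ))]
      with T h1 h2
    refine Nat.le_findGreatest (Nat.le_floor h2) ?_
    exact Or.inr h1.le
  have hNtop : Tendsto (fun T => (N T : ℝ)) atTop atTop := by
    refine tendsto_atTop.2 fun b => ?_
    obtain ⟨n, hn⟩ := exists_nat_ge b
    filter_upwards [hNge n] with T hT
    exact hn.trans (by exact_mod_cast hT)
  have hNle : ∀ T : ℝ, (N T : ℝ) ≤ Real.sqrt (Real.log T) := by
    intro T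
    have h1 : N T ≤ ⌊Real.sqrt (Real.log T)⌋₊ := Nat.findGreatest_le _
    exact (Nat.cast_le.2 h1).trans (Nat.floor_le (Real.sqrt_nonneg _))
  have hNspec : ∀ T : ℝ, N T ≠ 0 → T ^ (-(1 / 2) : ℝ) ≤ δ (N T) := by
    intro T hT
    have h1 : P T (N T) := Nat.findGreatest_spec (P := P T) (m := 0) (Nat.zero_le _) (Or.inl rfl)
    exact h1.resolve_left hT
  refine ⟨fun T => Real.sqrt (N T), Real.tendsto_sqrt_atTop.comp hNtop, ?_, ?_⟩
  · -- the ratio
    have h1 : Tendsto (fun T : ℝ => 1 / Real.sqrt (Real.log T)) atTop (𝓝 0) := by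
      refine hsq.inv_tendsto_atTop.congr fun T => ?_
      rw [Pi.inv_apply, one_div]
    refine squeeze_zero' ?_ ?_ h1
    · filter_upwards [eventually_gt_atTop 1] with T hT
      exact div_nonneg (Real.sqrt_nonneg _) (Real.log_pos hT).le
    · filter_upwards [hlog.eventually (eventually_ge_atTop 1)] with T hT
      have h2 : 0 < Real.log T := by linarith
      have h3 : 0 < Real.sqrt (Real.log T) := Real.sqrt_pos.2 h2
      have h4 : 1 ≤ Real.sqrt (Real.log T) := Real.one_le_sqrt.2 hT
      have h5 : Real.sqrt (N T) ≤ Real.sqrt (Real.log T) := by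
        refine Real.sqrt_le_sqrt ((hNle T).trans ?_)
        calc Real.sqrt (Real.log T) ≤ Real.sqrt (Real.log T) * Real.sqrt (Real.log T) :=
              le_mul_of_one_le_right h3.le h4
          _ = Real.log T := Real.mul_self_sqrt h2.le
      have h6 : Real.log T = Real.sqrt (Real.log T) * Real.sqrt (Real.log T) :=
        (Real.mul_self_sqrt h2.le).symm
      show Real.sqrt (N T) / Real.log T ≤ 1 / Real.sqrt (Real.log T)
      rw [div_le_div_iff₀ h2 h3, one_mul]
      calc Real.sqrt (N T) * Real.sqrt (Real.log T)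
          ≤ Real.sqrt (Real.log T) * Real.sqrt (Real.log T) :=
            mul_le_mul_of_nonneg_right h5 h3.le
        _ = Real.log T := h6.symm
  · intro r C
    obtain ⟨n0, hn0⟩ := exists_nat_ge (C ^ 2)
    filter_upwards [hNge (max 1 (max r n0)), eventually_gt_atTop 0] with T hT hT0
    have hT1 : 1 ≤ N T := le_trans (le_max_left _ _) hT
    have hTr : r ≤ N T := le_trans (le_trans (le_max_left _ _) (le_max_right _ _)) hT
    have hTn : n0 ≤ N T := le_trans (le_trans (le_max_right _ _) (le_max_right _ _)) hT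
    have hC : C * Real.sqrt (N T) ≤ N T := by
      have h1 : C ≤ Real.sqrt (N T) := by
        refine Real.le_sqrt_of_sq_le (hn0.trans ?_)
        exact_mod_cast hTn
      calc C * Real.sqrt (N T) ≤ Real.sqrt (N T) * Real.sqrt (N T) :=
            mul_le_mul_of_nonneg_right h1 (Real.sqrt_nonneg _)
        _ = N T := Real.mul_self_sqrt (Nat.cast_nonneg _)
    intro s e hs hp hne he hl hex
    have h2 := h (N T) s e ⟨by exact_mod_cast hs.trans hTr, hp, hne,
      fun g hg => (he g hg).trans hC, fun g hg => (hl g hg).trans hC, hex⟩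
    exact (hNspec T (by omega)).trans h2

end GN33
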