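import Pool.Agent.LibGN33.G4
import Pool.Agent.LibGN33.G5
import Pool.Agent.LibGN33.G6

/-! Row G8: for a generic metric the separation holds for a growth of the lengths which is prescribed
at arbitrarily large `T` (helper33). -/

open MeasureTheory Set Filter Topology
open scoped ContDiff unitInterval

namespace GN33

open BGS BGM

variable {Γ : Type} [Group Γ] [MulAction Γ Pl] {D : Set Pl}

/-- The combinations of at most `r` lengths, of size at most `R`, are larger than `δ`. -/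
def QG (Γ : Type) [Group Γ] [MulAction Γ Pl] (m : Pl → Co) (r : ℕ) (R δ : ℝ) : Prop :=
  ∀ (s : Finset Γ) (e : Γ → ℤ), s.card ≤ r → Adm m R s e → δ < |∑ g ∈ s, (e g : ℝ) * tl m g|

private theorem G8_min {W : Set ℝ} (hW : W.Finite) (δ : ℝ) :
    ∃ δ' : ℝ, δ < δ' ∧ ∀ w ∈ W, δ < |w| → δ' ≤ |w| := by
  induction W, hW using Set.Finite.induction_on with
  | empty => exact ⟨δ + 1, by linarith, fun w hw => absurd hw (Set.notMem_empty w)⟩
  | @insert a W _ _ ih =>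
    obtain ⟨δ', h1, h2⟩ := ih
    by_cases ha : δ < |a|
    · refine ⟨min δ' |a|, lt_min h1 ha, fun w hw hδ => ?_⟩
      rcases Set.mem_insert_iff.1 hw with rfl | hw
      · exact min_le_right _ _
      · exact (min_le_left _ _).trans (h2 w hw hδ)
    · refine ⟨δ', h1, fun w hw hδ => ?_⟩
      rcases Set.mem_insert_iff.1 hw with rfl | hw
      · exact absurd hδ ha
      · exact h2 w hw hδ

theorem QG_open (hX : Surface Γ D) (r : ℕ) (R δ : ℝ) : IsOpen {m : Mt Γ D | QG Γ m.1.1 r R δ} := by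
  rw [isOpen_iff_mem_nhds]
  intro m hm
  have hm' : QG Γ m.1.1 r R δ := hm
  rcases lt_or_ge R 0 with hR | hR
  · refine Filter.mem_of_superset Filter.univ_mem fun m' _ => ?_
    intro s e _ hs
    have h1 : (0 : ℝ) ≤ (s.card : ℝ) := Nat.cast_nonneg _
    have h2 := hs.card
    linarith
  obtain ⟨W, hW, hw⟩ := fin_values hX m R
  obtain ⟨δ', hδ, hd⟩ := G8_min hW δ
  have hgap : ∀ (s : Finset Γ) (e : Γ → ℤ), s.card ≤ r → Adm m.1.1 R s e →
      δ' ≤ |∑ g ∈ s, (e g : ℝ) * tl m.1.1 g| := fun s e hs hA =>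
    hd _ (hw s e hA.nc hA.coef hA.len) (hm' s e hs hA)
  obtain ⟨ε, hε, hlen⟩ := len_gap hX m R
  have hδ0 : 0 < δ' - δ := sub_pos.2 hδ
  obtain ⟨η, hη, hη1, hη2⟩ : ∃ η : ℝ, 0 < η ∧ η * R ≤ ε ∧ η * R ^ 3 < δ' - δ := by
    refine ⟨min (ε / (R + 1)) ((δ' - δ) / (R ^ 3 + 1)), ?_, ?_, ?_⟩
    · have h1 : 0 < R + 1 := by linarith
      have h2 : 0 < R ^ 3 + 1 := by positivity
      exact lt_min (div_pos hε h1) (div_pos hδ0 h2)
    · have h1 : 0 < R + 1 := by linarith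
      calc min (ε / (R + 1)) ((δ' - δ) / (R ^ 3 + 1)) * R ≤ ε / (R + 1) * R :=
            mul_le_mul_of_nonneg_right (min_le_left _ _) hR
        _ ≤ ε / (R + 1) * (R + 1) := by
            refine mul_le_mul_of_nonneg_left (by linarith) (div_pos hε h1).le
        _ = ε := div_mul_cancel₀ _ h1.ne'
    · have h2 : 0 < R ^ 3 + 1 := by positivity
      have h3 : 0 < (δ' - δ) / (R ^ 3 + 1) := div_pos hδ0 h2
      calc min (ε / (R + 1)) ((δ' - δ) / (R ^ 3 + 1)) * R ^ 3 ≤ (δ' - δ) / (R ^ 3 + 1) * R ^ 3 :=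
            mul_le_mul_of_nonneg_right (min_le_right _ _) (by positivity)
        _ < (δ' - δ) / (R ^ 3 + 1) * (R ^ 3 + 1) := by
            refine mul_lt_mul_of_pos_left (by linarith) h3
        _ = δ' - δ := div_mul_cancel₀ _ h2.ne'
  filter_upwards [near_qf hX m hη] with m' hnear
  intro s e hsr hs
  have h1 : ∀ g : Γ, tl m'.1.1 g ≤ (1 + η) * tl m.1.1 g := fun g =>
    tl_le_of_qf (rp m) (rp m') hη.le (fun z v => (hnear z v).1) g
  have h2 : ∀ g : Γ, tl m.1.1 g ≤ (1 + η) * tl m'.1.1 g := fun g =>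
    tl_le_of_qf (rp m') (rp m) hη.le (fun z v => (hnear z v).2) g
  have h3 : ∀ g ∈ s, tl m.1.1 g ≤ R := by
    intro g hg
    refine hlen g ((h2 g).trans ?_)
    have h4 := hs.len g hg
    have h5 : (1 + η) * tl m'.1.1 g ≤ (1 + η) * R :=
      mul_le_mul_of_nonneg_left h4 (by linarith)
    linarith
  have h4 := hgap s e hsr ⟨hs.card, hs.prim, hs.nc, hs.coef, h3, hs.ne⟩
  have h5 : ∀ g ∈ s, |tl m.1.1 g - tl m'.1.1 g| ≤ η * R := by
    intro g hg
    have h6 := h1 g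
    have h7 := h2 g
    have h8 := h3 g hg
    have h9 := hs.len g hg
    have h10 : η * tl m.1.1 g ≤ η * R := mul_le_mul_of_nonneg_left h8 hη.le
    have h11 : η * tl m'.1.1 g ≤ η * R := mul_le_mul_of_nonneg_left h9 hη.le
    rw [abs_le]
    constructor <;> nlinarith
  have h6 : ∑ g ∈ s, (e g : ℝ) * tl m.1.1 g - ∑ g ∈ s, (e g : ℝ) * tl m'.1.1 g =
      ∑ g ∈ s, (e g : ℝ) * (tl m.1.1 g - tl m'.1.1 g) := by
    rw [← Finset.sum_sub_distrib]
    exact Finset.sum_congr rfl fun g _ => by ring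
  have h7 : |∑ g ∈ s, (e g : ℝ) * tl m.1.1 g - ∑ g ∈ s, (e g : ℝ) * tl m'.1.1 g| ≤ η * R ^ 3 := by
    rw [h6]
    calc |∑ g ∈ s, (e g : ℝ) * (tl m.1.1 g - tl m'.1.1 g)|
        ≤ ∑ g ∈ s, |(e g : ℝ) * (tl m.1.1 g - tl m'.1.1 g)| := Finset.abs_sum_le_sum_abs _ _
      _ ≤ ∑ _g ∈ s, R * (η * R) := by
          refine Finset.sum_le_sum fun g hg => ?_
          rw [abs_mul]
          exact mul_le_mul (hs.coef g hg) (h5 g hg) (abs_nonneg _) hR
      _ = s.card * (R * (η * R)) := by rw [Finset.sum_const, nsmul_eq_mul]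
      _ ≤ R * (R * (η * R)) := by
          refine mul_le_mul_of_nonneg_right hs.card (by positivity)
      _ = η * R ^ 3 := by ring
  have h8 := abs_sub_abs_le_abs_sub (∑ g ∈ s, (e g : ℝ) * tl m.1.1 g)
    (∑ g ∈ s, (e g : ℝ) * tl m'.1.1 g)
  linarith

private theorem G8_ratio {L0 : ℝ → ℝ} (hL0 : Tendsto (fun T => L0 T / Real.log T) atTop (𝓝 0)) :
    Tendsto (fun T => max 1 (L0 T) / Real.log T) atTop (𝓝 0) := by
  have h1 : Tendsto (fun T : ℝ => 1 / Real.log T) atTop (𝓝 0) := by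
    refine Real.tendsto_log_atTop.inv_tendsto_atTop.congr fun T => ?_
    rw [Pi.inv_apply, one_div]
  have h2 : Tendsto (fun T : ℝ => max (1 / Real.log T) (L0 T / Real.log T)) atTop (𝓝 (max 0 0)) :=
    h1.max hL0
  rw [max_self] at h2
  refine h2.congr' ?_
  filter_upwards [eventually_gt_atTop 1] with T hT
  exact (max_div_div_right (Real.log_pos hT).le _ _)

private theorem G8_sep (hX : Surface Γ D) (m : Mt Γ D) {L : ℝ → ℝ}
    (hL : Tendsto (fun T => L T / Real.log T) atTop (𝓝 0)) (hS : SepG Γ m.1.1 L) (n : ℕ) :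
    ∃ T : ℝ, (n : ℝ) ≤ T ∧ QG Γ m.1.1 n (n * L T) (T ^ (-(1 / 2) : ℝ)) := by
  have h1 : ∀ᶠ T : ℝ in atTop, L T ≤ Real.log T := by
    filter_upwards [hL.eventually (gt_mem_nhds zero_lt_one), eventually_gt_atTop 1] with T hT hT1
    have h2 := (div_lt_one (Real.log_pos hT1)).1 hT
    exact h2.le
  obtain ⟨T₀, hT₀⟩ := Filter.eventually_atTop.1
    ((hS n n).and (h1.and ((eventually_ge_atTop (n : ℝ)).and (eventually_ge_atTop (1 : ℝ)))))
  obtain ⟨W, hW, hw⟩ := fin_values hX m (n * Real.log (T₀ + 1))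
  have hT1 : ∀ T ∈ Icc T₀ (T₀ + 1), (1 : ℝ) ≤ T := fun T hT => (hT₀ T hT.1).2.2.2
  have hinj : Set.InjOn (fun T : ℝ => T ^ (-(1 / 2) : ℝ)) (Icc T₀ (T₀ + 1)) := by
    intro a ha b hb hab
    have h3 : (0 : ℝ) < a := by linarith [hT1 a ha]
    have h4 : (0 : ℝ) < b := by linarith [hT1 b hb]
    have h5 : a ^ (-(1 / 2) : ℝ) = b ^ (-(1 / 2) : ℝ) := hab
    rw [Real.rpow_neg h3.le, Real.rpow_neg h4.le, inv_inj] at h5
    exact (Real.rpow_left_injOn (by norm_num : (1 / 2 : ℝ) ≠ 0)) h3.le h4.le h5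
  obtain ⟨y, ⟨T, hT, rfl⟩, hy⟩ := ((Set.Icc_infinite (by linarith : T₀ < T₀ + 1)).image
    hinj).exists_notMem_finite (hW.image fun w => |w|)
  obtain ⟨h3, h4, h5, h6⟩ := hT₀ T hT.1
  refine ⟨T, h5, fun s e hs hA => ?_⟩
  have h7 : n * L T ≤ n * Real.log (T₀ + 1) :=
    mul_le_mul_of_nonneg_left (h4.trans (Real.log_le_log (by linarith) hT.2)) (Nat.cast_nonneg _)
  have h8 := hw s e hA.nc (fun g hg => (hA.coef g hg).trans h7) fun g hg => (hA.len g hg).trans h7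
  have h9 := h3 s e hs hA.prim hA.nc hA.coef hA.len hA.ne
  refine lt_of_le_of_ne h9 fun h10 => hy ?_
  exact ⟨_, h8, h10.symm⟩

private theorem G8_dense (hX : Surface Γ D) {L : ℝ → ℝ}
    (hL : Tendsto (fun T => L T / Real.log T) atTop (𝓝 0)) (n : ℕ) :
    Dense {m : Mt Γ D | ∃ T : ℝ, (n : ℝ) ≤ T ∧ QG Γ m.1.1 n (n * L T) (T ^ (-(1 / 2) : ℝ))} := by
  obtain ⟨φ, h1, h2, h3, h4⟩ := sep_ae hX (h1_of hX) hL
  intro m
  rw [mem_closure_iff_nhds]
  intro U hU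
  obtain ⟨s₀, hs₀, h5⟩ := h3 m U hU
  have h0 : (fun _ : Pl => (0 : ℝ)) ∈ Test Γ := ⟨contDiff_const, fun _ _ => rfl⟩
  have h6 := h4 m _ h0 (min s₀ 1) (lt_min hs₀ one_pos) (min_le_right _ _)
  obtain ⟨ξ, hξ⟩ := h6.exists
  obtain ⟨m', hm', q, hq, hq'⟩ := h5 (min s₀ 1) (lt_min hs₀ one_pos) (min_le_left _ _) ξ
  refine ⟨m', hm', G8_sep hX m' hL (hξ m' ⟨q, hq, fun z => ?_⟩) n⟩
  rw [hq' z, zero_add]

private theorem G8_open (hX : Surface Γ D) {L : ℝ → ℝ} (n : ℕ) :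
    IsOpen {m : Mt Γ D | ∃ T : ℝ, (n : ℝ) ≤ T ∧ QG Γ m.1.1 n (n * L T) (T ^ (-(1 / 2) : ℝ))} := by
  have h : {m : Mt Γ D | ∃ T : ℝ, (n : ℝ) ≤ T ∧ QG Γ m.1.1 n (n * L T) (T ^ (-(1 / 2) : ℝ))} =
      ⋃ T : ℝ, ⋃ _ : (n : ℝ) ≤ T, {m : Mt Γ D | QG Γ m.1.1 n (n * L T) (T ^ (-(1 / 2) : ℝ))} := by
    ext m
    simp
  rw [h]
  exact isOpen_iUnion fun T => isOpen_iUnion fun _ => QG_open hX _ _ _

/-- For a generic metric the lengths of the closed geodesics are separated at a slow scale for all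
`T` and at the prescribed scale `L0` for arbitrarily large `T`. -/
theorem generic2 (hX : Surface Γ D) {L0 : ℝ → ℝ}
    (hL0 : Tendsto (fun T => L0 T / Real.log T) atTop (𝓝 0)) :
    ∀ᶠ m in residual (Mt Γ D), ∃ Lam : ℝ → ℝ, Tendsto Lam atTop atTop ∧
      Tendsto (fun T => Lam T / Real.log T) atTop (𝓝 0) ∧ SepG Γ m.1.1 Lam ∧
      ∃ᶠ T in atTop, L0 T ≤ Lam T := by
  classical
  set L : ℝ → ℝ := fun T => max 1 (L0 T) with hLdef
  have hL1 : ∀ T, 1 ≤ L T := fun T => le_max_left _ _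
  have hL : Tendsto (fun T => L T / Real.log T) atTop (𝓝 0) := G8_ratio hL0
  have h1 : ∀ n : ℕ, {m : Mt Γ D | QI Γ m.1.1 n} ∈ residual (Mt Γ D) := fun n =>
    residual_of_dense_open (QI_open hX n) (QI_dense hX n)
  have h1' : ∀ n : ℕ, {m : Mt Γ D | ∃ T : ℝ, (n : ℝ) ≤ T ∧
      QG Γ m.1.1 n (n * L T) (T ^ (-(1 / 2) : ℝ))} ∈ residual (Mt Γ D) := fun n =>
    residual_of_dense_open (G8_open hX n) (G8_dense hX hL n)
  filter_upwards [eventually_countable_forall.2 h1, eventually_countable_forall.2 h1'] with m hm hm'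
  have h2 : ∀ n : ℕ, ∃ δ : ℝ, 0 < δ ∧ ∀ (s : Finset Γ) (e : Γ → ℤ), Adm m.1.1 n s e →
      δ ≤ |∑ g ∈ s, (e g : ℝ) * tl m.1.1 g| := fun n => exists_gap hX m (hm n)
  choose δ hδ hδ' using h2
  obtain ⟨Ls, hs1, hs2, hs3⟩ := slow δ hδ hδ'
  choose t ht ht' using hm'
  set Lam : ℝ → ℝ := fun T => if T ∈ Set.range t then max (Ls T) (L T) else Ls T with hLam
  have hge : ∀ T, Ls T ≤ Lam T := by
    intro T
    simp only [hLam]
    split_ifs
    · exact le_max_left _ _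
    · exact le_rfl
  have hor : ∀ T, Lam T = Ls T ∨ (T ∈ Set.range t ∧ Lam T = L T) := by
    intro T
    simp only [hLam]
    split_ifs with h
    · rcases max_choice (Ls T) (L T) with h3 | h3
      · exact Or.inl h3
      · exact Or.inr ⟨h, h3⟩
    · exact Or.inl rfl
  refine ⟨Lam, tendsto_atTop_mono hge hs1, ?_, ?_, ?_⟩
  · rw [Metric.tendsto_nhds] at hs2 hL ⊢
    intro ε hε
    filter_upwards [hs2 ε hε, hL ε hε] with T h3 h4
    rcases hor T with h5 | ⟨-, h5⟩ <;> rw [h5]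
    · exact h3
    · exact h4
  · intro r C
    obtain ⟨n₀, hn₀⟩ := exists_nat_ge C
    have h3 : ∀ᶠ T : ℝ in atTop, ∀ n : ℕ, n < max r n₀ → T ≠ t n := by
      have h4 : ∀ᶠ T : ℝ in atTop, ∀ n ∈ Finset.range (max r n₀), T ≠ t n :=
        (Filter.eventually_all_finset _).2 fun n _ => eventually_ne_atTop _
      filter_upwards [h4] with T hT n hn
      exact hT n (Finset.mem_range.2 hn)
    filter_upwards [hs3 r C, h3] with T h4 h5 s e hsr hp hnc he hl hne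
    rcases hor T with h6 | ⟨⟨n, rfl⟩, h6⟩
    · rw [h6] at he hl
      exact h4 s e hsr hp hnc he hl hne
    · rw [h6] at he hl
      have h7 : max r n₀ ≤ n := by
        by_contra h
        exact h5 n (not_le.1 h) rfl
      have h8 : r ≤ n := (le_max_left _ _).trans h7
      have h9 : C ≤ (n : ℝ) := hn₀.trans (by exact_mod_cast (le_max_right r n₀).trans h7)
      have h10 : C * L (t n) ≤ n * L (t n) :=
        mul_le_mul_of_nonneg_right h9 (zero_le_one.trans (hL1 _))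
      have h11 : (s.card : ℝ) ≤ n * L (t n) := by
        have h12 : (s.card : ℝ) ≤ n := by exact_mod_cast hsr.trans h8
        exact h12.trans (le_mul_of_one_le_right (Nat.cast_nonneg _) (hL1 _))
      exact (ht' n s e (hsr.trans h8) ⟨h11, hp, hnc, fun g hg => (he g hg).trans h10,
        fun g hg => (hl g hg).trans h10, hne⟩).le
  · rw [Filter.frequently_atTop]
    intro a
    obtain ⟨n, hn⟩ := exists_nat_ge a
    refine ⟨t n, hn.trans (ht n), ?_⟩
    simp only [hLam]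
    rw [if_pos ⟨n, rfl⟩]
    exact (le_max_right _ _).trans (le_max_right _ _)

end GN33
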