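import Pool.Agent.LibBGM20.SG
import Pool.Agent.LibBGM20.GD
import Pool.Agent.LibBGM20.H1B
import Pool.Agent.LibBGS.Cmp
import Pool.Agent.LibBGS.BaireM
import Pool.Agent.LibBR70.PX7

/-! Generic metrics: rational independence of the lengths of the closed geodesics. -/

open MeasureTheory Set Filter Topology
open scoped ContDiff unitInterval

namespace GN33

open BGS BGM

/-- `(s, e)`: an integer combination of at most `R` lengths of primitive classes, pairwise neither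
conjugate nor conjugate up to inversion, of length at most `R`, with coefficients of size at most
`R`, not all zero. -/
structure Adm {Γ : Type} [Group Γ] [MulAction Γ Pl] (m : Pl → Co) (R : ℝ) (s : Finset Γ)
    (e : Γ → ℤ) : Prop where
  card : (s.card : ℝ) ≤ R
  prim : ∀ g ∈ s, Prim g
  nc : ∀ g ∈ s, ∀ g' ∈ s, g ≠ g' → ∀ γ : Γ, γ * g * γ⁻¹ ≠ g' ∧ γ * g * γ⁻¹ ≠ g'⁻¹
  coef : ∀ g ∈ s, |(e g : ℝ)| ≤ R
  len : ∀ g ∈ s, tl m g ≤ R
  ne : ∃ g ∈ s, e g ≠ 0

/-- The combinations of size at most `R` do not vanish. -/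
def QI (Γ : Type) [Group Γ] [MulAction Γ Pl] (m : Pl → Co) (R : ℝ) : Prop :=
  ∀ (s : Finset Γ) (e : Γ → ℤ), Adm m R s e → ∑ g ∈ s, (e g : ℝ) * tl m g ≠ 0

variable {Γ : Type} [Group Γ] [MulAction Γ Pl] {D : Set Pl}

/-- The Hadamard plane of a metric. -/
theorem had (hX : Surface Γ D) (m : Mt Γ D) :
    ∃ k : ℝ, Had m.1.1 k (BR.Ex m.1.1) (BR.Vx m.1.1) (BR.JB m.1.1) := by
  obtain ⟨a, b, ha, hab, h⟩ := BR.curv_bounds hX (BR.hm_of_Mt m)
  exact ⟨b, had_of hX (BR.hm_of_Mt m) (ha.trans_le hab) fun z => (h z).1⟩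

theorem iv (m : Mt Γ D) : Iv Γ m.1.1 := m.2.inv

theorem rp (m : Mt Γ D) : Rp m.1.1 := ⟨m.1.2, m.2.pos⟩

end GN33
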