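import Pool.Agent.LibGN33.Defs

/-! Row G1: nearby metrics are comparable. 35 min.
PLAN. First for `z ∈ closure D` (compact: `Cmp_compact hX`) and `v` in the compact unit sphere (of the norm of `Pl`): the function
`(m', z, v) ↦ qf (m'.1 z) v` on `Sm × Pl × Pl` is continuous (`continuous_eval` of LibBGS/Cmp, `qf` polynomial), and
`qf (m z) v > 0` (`m.2.pos`: `E > 0`, `E G - F ^ 2 > 0`). The two inequalities with `<` for the triple are open conditions, true at
`(m, z, v)`, so by compactness (`IsCompact.eventually_forall_of_forall_eventually`, as in the proof of `near_coeff` of LibBGS/Cmp) they hold for all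
`m'` near `m` and all `(z, v)` in the compact set; homogeneity (`qf c (r • v) = r ^ 2 * qf c v`) gives all `v`. General `z`: by `hX.orbit z` there is
`γ` with `γ • z ∈ D`, and `m.2.inv γ z v`, `m'.2.inv γ z v` express `qf (m z) v` and `qf (m' z) v` by the values at `γ • z` in the same vector. -/

open MeasureTheory Set Filter Topology
open scoped ContDiff unitInterval

namespace GN33

open BGS BGM

variable {Γ : Type} [Group Γ] [MulAction Γ Pl] {D : Set Pl}

private theorem G1_qf {c : Co} (h : 0 < dt c) (v : Pl) :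
    qf c v = √(dt c) * wf c v.2 (-v.1) := by
  have h1 : √(dt c) ≠ 0 := (Real.sqrt_pos.2 h).ne'
  unfold wf qf
  field_simp
  ring

private theorem G1_wf {c : Co} (h0 : 0 < c.1) (h : 0 < dt c) (p q : ℝ) : 0 ≤ wf c p q := by
  unfold wf
  refine div_nonneg ?_ (Real.sqrt_nonneg _)
  have h1 : c.1 * (c.2.2 * p ^ 2 - 2 * c.2.1 * p * q + c.1 * q ^ 2) =
      dt c * p ^ 2 + (c.2.1 * p - c.1 * q) ^ 2 := by
    unfold dt
    ring
  have h2 : 0 ≤ c.1 * (c.2.2 * p ^ 2 - 2 * c.2.1 * p * q + c.1 * q ^ 2) := by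
    rw [h1]
    positivity
  exact nonneg_of_mul_nonneg_right h2 h0

private theorem G1_le {c c' : Co} {η : ℝ} (hη : 0 < η) (h0 : 0 < c.1) (h : 0 < dt c)
    (h' : 0 < dt c') (h1 : ∀ p q : ℝ, wf c' p q ≤ (1 + η) * wf c p q)
    (h2 : √(dt c') ≤ (1 + η) * √(dt c)) (v : Pl) : qf c' v ≤ (1 + η) ^ 2 * qf c v := by
  rw [G1_qf h, G1_qf h']
  have h3 := G1_wf h0 h v.2 (-v.1)
  calc √(dt c') * wf c' v.2 (-v.1) ≤ √(dt c') * ((1 + η) * wf c v.2 (-v.1)) :=
        mul_le_mul_of_nonneg_left (h1 _ _) (Real.sqrt_nonneg _)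
    _ ≤ ((1 + η) * √(dt c)) * ((1 + η) * wf c v.2 (-v.1)) :=
        mul_le_mul_of_nonneg_right h2 (by positivity)
    _ = (1 + η) ^ 2 * (√(dt c) * wf c v.2 (-v.1)) := by ring

theorem near_qf (hX : Surface Γ D) (m : Mt Γ D) {η : ℝ} (hη : 0 < η) :
    ∀ᶠ m' in 𝓝 m, ∀ z v : Pl, qf (m'.1.1 z) v ≤ (1 + η) ^ 2 * qf (m.1.1 z) v ∧
      qf (m.1.1 z) v ≤ (1 + η) ^ 2 * qf (m'.1.1 z) v := by
  filter_upwards [near_coeff hX m hη] with m' h z v
  obtain ⟨γ, hγ, -⟩ := hX.orbit z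
  have h1 := h (γ • z) hγ
  rw [← m.2.inv γ z v, ← m'.2.inv γ z v]
  have hp := m.2.pos (γ • z)
  have hp' := m'.2.pos (γ • z)
  exact ⟨G1_le hη hp.1 hp.2 hp'.2 (fun p q => (h1.1 p q).1) h1.2.1 _,
    G1_le hη hp'.1 hp'.2 hp.2 (fun p q => (h1.1 p q).2) h1.2.2 _⟩

end GN33
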