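import Pool.Agent.LibGN33.Defs

/-! Row G2: lengths of comparable metrics. -/

open MeasureTheory Set Filter Topology
open scoped ContDiff unitInterval

namespace GN33

open BGS BGM

variable {Γ : Type} [Group Γ] [MulAction Γ Pl] {D : Set Pl}

private theorem G2_nm {c c' : Co} {η : ℝ} (hη : 0 ≤ η)
    (h : ∀ v : Pl, qf c' v ≤ (1 + η) ^ 2 * qf c v) (v : Pl) : nm c' v ≤ (1 + η) * nm c v := by
  unfold nm
  have h1 : (0 : ℝ) ≤ 1 + η := by linarith
  have h2 : (1 + η) * √(qf c v) = √((1 + η) ^ 2 * qf c v) := by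
    rw [Real.sqrt_mul (by positivity), Real.sqrt_sq h1]
  rw [h2]
  exact Real.sqrt_le_sqrt (h v)

private theorem G2_len {m m' : Pl → Co} (hm : Rp m) (hm' : Rp m') {η : ℝ} (hη : 0 ≤ η)
    (h : ∀ z v : Pl, qf (m' z) v ≤ (1 + η) ^ 2 * qf (m z) v) {c : ℝ → Pl}
    (hc : ContDiff ℝ 1 c) : len m' c 0 1 ≤ (1 + η) * len m c 0 1 := by
  unfold len
  rw [← intervalIntegral.integral_const_mul]
  exact intervalIntegral.integral_mono_on zero_le_one
    ((A4_cont hm' hc).intervalIntegrable _ _)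
    (((A4_cont hm hc).const_mul (1 + η)).intervalIntegrable _ _)
    fun t _ => G2_nm hη (h (c t)) (deriv c t)

private theorem G2_ds {m m' : Pl → Co} (hm : Rp m) (hm' : Rp m') {η : ℝ} (hη : 0 ≤ η)
    (h : ∀ z v : Pl, qf (m' z) v ≤ (1 + η) ^ 2 * qf (m z) v) (z w : Pl) :
    ds m' z w ≤ (1 + η) * ds m z w := by
  have h1 : (0 : ℝ) < 1 + η := by linarith
  rw [← div_le_iff₀' h1]
  unfold ds
  refine le_csInf ?_ ?_
  · refine ⟨_, fun t : ℝ => z + t • (w - z), ?_, ?_, ?_, rfl⟩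
    · exact contDiff_const.add (contDiff_id.smul contDiff_const)
    · simp
    · simp
  · rintro l ⟨c, hc, h0, h1', rfl⟩
    rw [div_le_iff₀' h1]
    refine le_trans (csInf_le ⟨0, ?_⟩ ⟨c, hc, h0, h1', rfl⟩) (G2_len hm hm' hη h hc)
    rintro l ⟨c, _, _, _, rfl⟩
    exact len_nonneg m' c zero_le_one

theorem tl_le_of_qf {m m' : Pl → Co} (hm : Rp m) (hm' : Rp m') {η : ℝ} (hη : 0 ≤ η)
    (h : ∀ z v : Pl, qf (m' z) v ≤ (1 + η) ^ 2 * qf (m z) v) (g : Γ) :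
    tl m' g ≤ (1 + η) * tl m g := by
  have h1 : (0 : ℝ) < 1 + η := by linarith
  rw [← div_le_iff₀' h1]
  unfold tl
  refine le_csInf (Set.range_nonempty _) ?_
  rintro _ ⟨z, rfl⟩
  rw [div_le_iff₀' h1]
  exact (tl_le m' g z).trans (G2_ds hm hm' hη h z _)

end GN33
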