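import Pool.Agent.LibGN33.Defs

/-! Row G3: finitely many values. 35 min.
PLAN. `h : Had ..` from `had hX m`, `GD_count hX (iv m) h` (LibBGM20/GD): the set `S` of the classes `c` with `∃ g, mk g = c ∧ tl m g ≤ R` is finite
(`R < 0`: then every `s` is empty, or use `max R 0`). Let `τ c = tl m (Quotient.out c)` (`tl m g = τ (mk g)` by `B2_conj`). For an `(s, e)` as below the map `mk : s → S` is injective
(`nc` without inversion), so `∑ g ∈ s, e g * tl m g = ∑ c ∈ S, f c * τ c` with `f c = e g` if `c = mk g`, `g ∈ s`, and `0` otherwise, `|f c| ≤ ⌊R⌋`. The set of the functions `f : S → ℤ` with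
values in `[-⌊R⌋, ⌊R⌋]` is finite (`Set.Finite.pi` or `Fintype.piFinset`), so the set of the values is contained in a finite set `W`.
`exists_gap`: `W` finite, take the minimum of the absolute values of the nonzero elements of `W` (and `1`).
`len_gap`: the finite set `S` of classes of length `≤ R + 1`: the minimum of the `τ c - R > 0`, `c ∈ S`, (and `1`). -/

open MeasureTheory Set Filter Topology
open scoped ContDiff unitInterval

namespace GN33

open BGS BGM

variable {Γ : Type} [Group Γ] [MulAction Γ Pl] {D : Set Pl}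

private theorem G3_tl (hX : Surface Γ D) (m : Mt Γ D) (g : Γ) :
    tl m.1.1 (Quotient.out (ConjClasses.mk g)) = tl m.1.1 g := by
  have h1 : ConjClasses.mk (Quotient.out (ConjClasses.mk g)) = ConjClasses.mk g :=
    Quotient.out_eq _
  obtain ⟨c, hc⟩ := isConj_iff.1 (ConjClasses.mk_eq_mk_iff_isConj.1 h1)
  have h2 := B2_conj hX (iv m) (Quotient.out (ConjClasses.mk g)) c
  rw [hc] at h2
  exact h2.symm

private theorem G3_fin (hX : Surface Γ D) (m : Mt Γ D) (R : ℝ) :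
    {c : ConjClasses Γ | ∃ g, ConjClasses.mk g = c ∧ tl m.1.1 g ≤ R}.Finite := by
  obtain ⟨k, h⟩ := had hX m
  obtain ⟨C, hC⟩ := GD_count hX (iv m) h
  refine (hC (max R 0) (le_max_right _ _)).1.subset ?_
  rintro c ⟨g, hg, h1⟩
  exact ⟨g, hg, h1.trans (le_max_left _ _)⟩

private theorem G3_min {W : Set ℝ} (hW : W.Finite) :
    ∃ δ : ℝ, 0 < δ ∧ ∀ x ∈ W, x ≠ 0 → δ ≤ |x| := by
  induction W, hW using Set.Finite.induction_on with
  | empty => exact ⟨1, one_pos, fun x hx => absurd hx (Set.notMem_empty x)⟩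
  | @insert a W _ _ ih =>
    obtain ⟨δ, hδ, h⟩ := ih
    by_cases ha : a = 0
    · refine ⟨δ, hδ, fun x hx hx0 => ?_⟩
      rcases hx with rfl | hx
      · exact absurd ha hx0
      · exact h x hx hx0
    · refine ⟨min δ |a|, lt_min hδ (abs_pos.2 ha), fun x hx hx0 => ?_⟩
      rcases hx with rfl | hx
      · exact min_le_right _ _
      · exact (min_le_left _ _).trans (h x hx hx0)

theorem fin_values (hX : Surface Γ D) (m : Mt Γ D) (R : ℝ) : ∃ W : Set ℝ, W.Finite ∧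
    ∀ (s : Finset Γ) (e : Γ → ℤ),
      (∀ g ∈ s, ∀ g' ∈ s, g ≠ g' → ∀ γ : Γ, γ * g * γ⁻¹ ≠ g' ∧ γ * g * γ⁻¹ ≠ g'⁻¹) →
      (∀ g ∈ s, |(e g : ℝ)| ≤ R) → (∀ g ∈ s, tl m.1.1 g ≤ R) →
      ∑ g ∈ s, (e g : ℝ) * tl m.1.1 g ∈ W := by
  classical
  set S : Set (ConjClasses Γ) := {c | ∃ g, ConjClasses.mk g = c ∧ tl m.1.1 g ≤ R} with hS
  have hSf : S.Finite := G3_fin hX m R
  have _i : Fintype S := hSf.fintype
  set n : ℤ := ⌈|R|⌉ with hn
  have hRn : R ≤ (n : ℝ) := (le_abs_self R).trans (Int.le_ceil _)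
  have hn0 : 0 ≤ n := Int.ceil_nonneg (abs_nonneg R)
  set τ : ConjClasses Γ → ℝ := fun c => tl m.1.1 (Quotient.out c) with hτ
  refine ⟨Set.range fun F : S → Set.Icc (-n) n => ∑ c : S, (((F c : ℤ)) : ℝ) * τ c,
    Set.finite_range _, ?_⟩
  intro s e hnc he hl
  have hinj : ∀ g ∈ s, ∀ g' ∈ s, ConjClasses.mk g = ConjClasses.mk g' → g = g' := by
    intro g hg g' hg' h1
    by_contra hne
    obtain ⟨c, hc⟩ := isConj_iff.1 (ConjClasses.mk_eq_mk_iff_isConj.1 h1)
    exact (hnc g hg g' hg' hne c).1 hc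
  have hb : ∀ c : S, (∑ g ∈ s.filter (fun g => ConjClasses.mk g = (c : ConjClasses Γ)), e g) ∈
      Set.Icc (-n) n := by
    intro c
    have hcard : (s.filter (fun g => ConjClasses.mk g = (c : ConjClasses Γ))).card ≤ 1 := by
      rw [Finset.card_le_one]
      intro g hg g' hg'
      rw [Finset.mem_filter] at hg hg'
      exact hinj g hg.1 g' hg'.1 (hg.2.trans hg'.2.symm)
    rcases Nat.le_one_iff_eq_zero_or_eq_one.1 hcard with h1 | h1
    · rw [Finset.card_eq_zero] at h1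
      rw [h1, Finset.sum_empty]
      exact ⟨by omega, hn0⟩
    · obtain ⟨g, hg⟩ := Finset.card_eq_one.1 h1
      rw [hg, Finset.sum_singleton]
      have hgs : g ∈ s := by
        have h2 : g ∈ s.filter (fun g => ConjClasses.mk g = (c : ConjClasses Γ)) := by
          rw [hg]
          exact Finset.mem_singleton_self g
        exact (Finset.mem_filter.1 h2).1
      have h3 := abs_le.1 ((he g hgs).trans hRn)
      refine ⟨?_, ?_⟩
      · have h4 : ((-n : ℤ) : ℝ) ≤ (e g : ℝ) := by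
          push_cast
          exact h3.1
        exact_mod_cast h4
      · exact_mod_cast h3.2
  refine ⟨fun c => ⟨_, hb c⟩, ?_⟩
  show ∑ c : S, ((∑ g ∈ s.filter (fun g => ConjClasses.mk g = (c : ConjClasses Γ)), e g : ℤ) :
    ℝ) * τ c = _
  have hmaps : ∀ g ∈ s, ConjClasses.mk g ∈ hSf.toFinset := fun g hg => by
    rw [Set.Finite.mem_toFinset]
    exact ⟨g, rfl, hl g hg⟩
  rw [← Finset.sum_fiberwise_of_maps_to hmaps]
  have h5 : ∑ c : S, ((∑ g ∈ s.filter (fun g => ConjClasses.mk g = (c : ConjClasses Γ)), e g :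
      ℤ) : ℝ) * τ c = ∑ c ∈ hSf.toFinset,
        ((∑ g ∈ s.filter (fun g => ConjClasses.mk g = c), e g : ℤ) : ℝ) * τ c := by
    refine (Finset.sum_subtype hSf.toFinset (fun c => ?_) (fun c : ConjClasses Γ =>
      ((∑ g ∈ s.filter (fun g => ConjClasses.mk g = c), e g : ℤ) : ℝ) * τ c)).symm
    rw [Set.Finite.mem_toFinset]
  rw [h5]
  refine Finset.sum_congr rfl fun c _ => ?_
  push_cast
  rw [Finset.sum_mul]
  refine Finset.sum_congr rfl fun g hg => ?_
  rw [Finset.mem_filter] at hg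
  rw [hτ]
  simp only
  rw [← hg.2, G3_tl hX m g]

/-- A rationally independent spectrum has a gap at every scale. -/
theorem exists_gap (hX : Surface Γ D) (m : Mt Γ D) {R : ℝ} (h : QI Γ m.1.1 R) :
    ∃ δ : ℝ, 0 < δ ∧ ∀ (s : Finset Γ) (e : Γ → ℤ), Adm m.1.1 R s e →
      δ ≤ |∑ g ∈ s, (e g : ℝ) * tl m.1.1 g| := by
  obtain ⟨W, hW, hw⟩ := fin_values hX m R
  obtain ⟨δ, hδ, hd⟩ := G3_min hW
  exact ⟨δ, hδ, fun s e hA => hd _ (hw s e hA.nc hA.coef hA.len) (h s e hA)⟩

/-- There are no lengths between `R` and `R + ε`. -/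
theorem len_gap (hX : Surface Γ D) (m : Mt Γ D) (R : ℝ) :
    ∃ ε : ℝ, 0 < ε ∧ ∀ g : Γ, tl m.1.1 g ≤ R + ε → tl m.1.1 g ≤ R := by
  have hSf := G3_fin hX m (R + 1)
  obtain ⟨δ, hδ, hd⟩ := G3_min (hSf.image fun c => tl m.1.1 (Quotient.out c) - R)
  refine ⟨min (δ / 2) 1, lt_min (half_pos hδ) one_pos, fun g hg => ?_⟩
  by_contra hlt
  rw [not_le] at hlt
  have h1 : tl m.1.1 g ≤ R + 1 := hg.trans (by linarith [min_le_right (δ / 2) (1 : ℝ)])
  have h2 := hd (tl m.1.1 g - R) ⟨ConjClasses.mk g, ⟨g, rfl, h1⟩, by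
    show tl m.1.1 (Quotient.out (ConjClasses.mk g)) - R = _
    rw [G3_tl hX m g]⟩ (by linarith [sub_pos.2 hlt])
  rw [abs_of_pos (sub_pos.2 hlt)] at h2
  have h3 := min_le_left (δ / 2) (1 : ℝ)
  linarith

end GN33
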