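import Pool.Agent.LibGN33.G1
import Pool.Agent.LibGN33.G2
import Pool.Agent.LibGN33.G3

/-! Row G4: rational independence up to `R` is an open condition. -/

open MeasureTheory Set Filter Topology
open scoped ContDiff unitInterval

namespace GN33

open BGS BGM

variable {Γ : Type} [Group Γ] [MulAction Γ Pl] {D : Set Pl}

theorem QI_open (hX : Surface Γ D) (R : ℝ) : IsOpen {m : Mt Γ D | QI Γ m.1.1 R} := by
  rw [isOpen_iff_mem_nhds]
  intro m hm
  have hm' : QI Γ m.1.1 R := hm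
  rcases lt_or_ge R 0 with hR | hR
  · refine Filter.mem_of_superset Filter.univ_mem fun m' _ => ?_
    intro s e hs
    have h1 : (0 : ℝ) ≤ (s.card : ℝ) := Nat.cast_nonneg _
    have h2 := hs.card
    linarith
  obtain ⟨δ, hδ, hgap⟩ := exists_gap hX m hm'
  obtain ⟨ε, hε, hlen⟩ := len_gap hX m R
  obtain ⟨η, hη, hη1, hη2⟩ : ∃ η : ℝ, 0 < η ∧ η * R ≤ ε ∧ η * R ^ 3 < δ := by
    refine ⟨min (ε / (R + 1)) (δ / (R ^ 3 + 1)), ?_, ?_, ?_⟩
    · have h1 : 0 < R + 1 := by linarith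
      have h2 : 0 < R ^ 3 + 1 := by positivity
      exact lt_min (div_pos hε h1) (div_pos hδ h2)
    · have h1 : 0 < R + 1 := by linarith
      calc min (ε / (R + 1)) (δ / (R ^ 3 + 1)) * R ≤ ε / (R + 1) * R :=
            mul_le_mul_of_nonneg_right (min_le_left _ _) hR
        _ ≤ ε / (R + 1) * (R + 1) := by
            refine mul_le_mul_of_nonneg_left (by linarith) (div_pos hε h1).le
        _ = ε := div_mul_cancel₀ _ h1.ne'
    · have h2 : 0 < R ^ 3 + 1 := by positivity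
      have h3 : 0 < δ / (R ^ 3 + 1) := div_pos hδ h2
      calc min (ε / (R + 1)) (δ / (R ^ 3 + 1)) * R ^ 3 ≤ δ / (R ^ 3 + 1) * R ^ 3 :=
            mul_le_mul_of_nonneg_right (min_le_right _ _) (by positivity)
        _ < δ / (R ^ 3 + 1) * (R ^ 3 + 1) := by
            refine mul_lt_mul_of_pos_left (by linarith) h3
        _ = δ := div_mul_cancel₀ _ h2.ne'
  filter_upwards [near_qf hX m hη] with m' hnear
  intro s e hs
  have h1 : ∀ g : Γ, tl m'.1.1 g ≤ (1 + η) * tl m.1.1 g := fun g =>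
    tl_le_of_qf (rp m) (rp m') hη.le (fun z v => (hnear z v).1) g
  have h2 : ∀ g : Γ, tl m.1.1 g ≤ (1 + η) * tl m'.1.1 g := fun g =>
    tl_le_of_qf (rp m') (rp m) hη.le (fun z v => (hnear z v).2) g
  have h3 : ∀ g ∈ s, tl m.1.1 g ≤ R := by
    intro g hg
    refine hlen g ((h2 g).trans ?_)
    have h4 := hs.len g hg
    have h5 : (1 + η) * tl m'.1.1 g ≤ (1 + η) * R :=
      mul_le_mul_of_nonneg_left h4 (by linarith)
    linarith
  have h4 := hgap s e ⟨hs.card, hs.prim, hs.nc, hs.coef, h3, hs.ne⟩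
  have h5 : ∀ g ∈ s, |tl m.1.1 g - tl m'.1.1 g| ≤ η * R := by
    intro g hg
    have h6 := h1 g
    have h7 := h2 g
    have h8 := h3 g hg
    have h9 := hs.len g hg
    have h10 : η * tl m.1.1 g ≤ η * R := mul_le_mul_of_nonneg_left h8 hη.le
    have h11 : η * tl m'.1.1 g ≤ η * R := mul_le_mul_of_nonneg_left h9 hη.le
    rw [abs_le]
    constructor <;> nlinarith
  intro h0
  have h6 : ∑ g ∈ s, (e g : ℝ) * tl m.1.1 g =
      ∑ g ∈ s, (e g : ℝ) * (tl m.1.1 g - tl m'.1.1 g) := by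
    have h7 : ∑ g ∈ s, (e g : ℝ) * (tl m.1.1 g - tl m'.1.1 g) =
        ∑ g ∈ s, (e g : ℝ) * tl m.1.1 g - ∑ g ∈ s, (e g : ℝ) * tl m'.1.1 g := by
      rw [← Finset.sum_sub_distrib]
      exact Finset.sum_congr rfl fun g _ => by ring
    rw [h7, h0, sub_zero]
  have h7 : |∑ g ∈ s, (e g : ℝ) * tl m.1.1 g| ≤ η * R ^ 3 := by
    rw [h6]
    calc |∑ g ∈ s, (e g : ℝ) * (tl m.1.1 g - tl m'.1.1 g)|
        ≤ ∑ g ∈ s, |(e g : ℝ) * (tl m.1.1 g - tl m'.1.1 g)| := Finset.abs_sum_le_sum_abs _ _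
      _ ≤ ∑ _g ∈ s, R * (η * R) := by
          refine Finset.sum_le_sum fun g hg => ?_
          rw [abs_mul]
          exact mul_le_mul (hs.coef g hg) (h5 g hg) (abs_nonneg _) hR
      _ = s.card * (R * (η * R)) := by rw [Finset.sum_const, nsmul_eq_mul]
      _ ≤ R * (R * (η * R)) := by
          refine mul_le_mul_of_nonneg_right hs.card (by positivity)
      _ = η * R ^ 3 := by ring
  linarith

end GN33
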