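import Pool.Agent.LibGN33.G4
import Pool.Agent.LibGN33.G5
import Pool.Agent.LibGN33.G6
import Pool.Agent.LibGD33.Asm2

/-! Row G7: the generic metric (helper33). -/

open MeasureTheory Set Filter Topology
open scoped ContDiff unitInterval

namespace GN33

open BGS BGM

variable {Γ : Type} [Group Γ] [MulAction Γ Pl] {D : Set Pl}

theorem generic (hX : Surface Γ D) (hO : BR.Ori Γ)
    (hSR : ∀ m : Mt Γ D, GWin.SumRule (GH.geo (BGM.tl m.1.1) (GD.trg m.1.1) (Γ := Γ))) :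
    ∀ᶠ m in residual (Mt Γ D), ∃ Lam : ℝ → ℝ, Tendsto Lam atTop atTop ∧
      ∀ L : ℝ → ℝ, Tendsto L atTop atTop → (∀ᶠ T in atTop, L T ≤ Lam T) →
        FG33.GOEWindows m L := by
  have h1 : ∀ n : ℕ, {m : Mt Γ D | QI Γ m.1.1 n} ∈ residual (Mt Γ D) := fun n =>
    residual_of_dense_open (QI_open hX n) (QI_dense hX n)
  filter_upwards [eventually_countable_forall.2 h1] with m hm
  have h2 : ∀ n : ℕ, ∃ δ : ℝ, 0 < δ ∧ ∀ (s : Finset Γ) (e : Γ → ℤ), Adm m.1.1 n s e →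
      δ ≤ |∑ g ∈ s, (e g : ℝ) * tl m.1.1 g| := fun n => exists_gap hX m (hm n)
  choose δ hδ hδ' using h2
  obtain ⟨Lam, hL1, hL2, hL3⟩ := slow δ hδ hδ'
  exact ⟨Lam, hL1, fun L hL hL' => GD.one_metric hX hO m (hSR m) hL2 hL3 hL hL'⟩

end GN33
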